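import Pool.Agent.NGM.StmtsL

/-! # NGM: a subgroup of finite index maps onto the integers (helper38) -/

set_option autoImplicit false

universe u

namespace Pool.Agent.NGM.H38

theorem z1 (A : Type*) [CommGroup A] [Group.FG A] [Infinite A] :
    ∃ f : A →* Multiplicative ℤ, Function.Surjective f := by
  classical
  obtain ⟨ι, j, _, _, p, hp, e, ⟨φ⟩⟩ := CommGroup.equiv_free_prod_prod_multiplicative_zmod A
  have hj : Nonempty j := by
    by_contra hc
    rw [not_nonempty_iff] at hc
    have : ∀ i, NeZero (p i ^ e i) := fun i => ⟨pow_ne_zero _ (hp i).ne_zero⟩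
    have : ∀ i, Finite (Multiplicative (ZMod (p i ^ e i))) := fun i =>
      inferInstanceAs (Finite (ZMod (p i ^ e i)))
    have : Finite A := Finite.of_equiv _ φ.symm.toEquiv
    exact not_finite A
  obtain ⟨i⟩ := hj
  refine ⟨((Pi.evalMonoidHom (fun _ : j => Multiplicative ℤ) i).comp (MonoidHom.fst _ _)).comp
    φ.toMonoidHom, ?_⟩
  intro z
  refine ⟨φ.symm (fun _ => z, 1), ?_⟩
  simp

theorem z2 {H : Type*} [Group H] [Group.FG H] {B : Type*} [Group B] (ρ : H →* B)
    (hc : ∀ g h, ρ g * ρ h = ρ h * ρ g) (hinf : Infinite ρ.range) :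
    ∃ f : H →* Multiplicative ℤ, Function.Surjective f := by
  let : CommGroup ρ.range :=
    { (inferInstance : Group ρ.range) with
      mul_comm := by
        rintro ⟨_, g, rfl⟩ ⟨_, h, rfl⟩
        exact Subtype.ext (hc g h) }
  have : Group.FG ρ.range := Group.fg_range ρ
  obtain ⟨f, hf⟩ := z1 ρ.range
  exact ⟨f.comp ρ.rangeRestrict, hf.comp ρ.rangeRestrict_surjective⟩

theorem fgQ {Q : Type u} [Group Q] {K : Finset Q} (hK : GenSet K) : Group.FG Q :=
  ⟨⟨K, hK.top⟩⟩

theorem viz (hCLG : ClgStmt.{u}) : VizStmt.{u} := by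
  intro Q _ K D hK hP n π b hb hub
  have : Group.FG Q := fgQ hK
  obtain ⟨H, hH, hcomm⟩ := hCLG Q K D hK hP n π
  have := hH
  have : Group.FG H := H.fg_of_index_ne_zero
  set ρ : H →* (EuclideanSpace ℝ (Fin n) ≃ₗᵢ[ℝ] EuclideanSpace ℝ (Fin n)) :=
    π.comp H.subtype with hρ
  by_cases hfin : Infinite ρ.range
  · obtain ⟨f, hf⟩ := z2 ρ (fun g h => hcomm g g.2 h h.2) hfin
    exact ⟨H, f, hH, hf⟩
  · rw [not_infinite_iff_finite] at hfin
    have := hfin
    have hker : ρ.ker.FiniteIndex := Subgroup.finiteIndex_ker ρ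
    set H₁ : Subgroup Q := ρ.ker.map H.subtype with hH₁
    have hπ : ∀ h ∈ H₁, π h = 1 := by
      rintro _ ⟨k, hk, rfl⟩
      exact hk
    have hfi : H₁.FiniteIndex := by
      refine ⟨?_⟩
      rw [hH₁, Subgroup.index_map_subtype]
      exact mul_ne_zero hker.index_ne_zero hH.index_ne_zero
    have := hfi
    have : Group.FG H₁ := H₁.fg_of_index_ne_zero
    have hadd : ∀ g ∈ H₁, ∀ h, b (g * h) = b g + b h := by
      intro g hg h
      rw [hb, hπ g hg]
      rfl
    have hone : b 1 = 0 := by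
      have := hadd 1 H₁.one_mem 1
      rw [mul_one] at this
      exact left_eq_add.1 this
    set σ : H₁ →* Multiplicative (EuclideanSpace ℝ (Fin n)) :=
      { toFun := fun g => Multiplicative.ofAdd (b g)
        map_one' := by
          change Multiplicative.ofAdd (b ((1 : H₁) : Q)) = 1
          rw [Subgroup.coe_one, hone]
          rfl
        map_mul' := fun g h => by
          change Multiplicative.ofAdd (b ((g * h : H₁) : Q)) = _
          rw [Subgroup.coe_mul, hadd g g.2 h]
          rfl } with hσ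
    -- `b` does not vanish on `H₁`
    have hne : ∃ h ∈ H₁, b h ≠ 0 := by
      by_contra hcon
      push Not at hcon
      have hconst : ∀ g, ∀ h ∈ H₁, b (g * h) = b g := by
        intro g h hh
        rw [hb, hcon h hh, map_zero, add_zero]
      have : Finite (Q ⧸ H₁) := inferInstance
      cases nonempty_fintype (Q ⧸ H₁)
      obtain ⟨g, hg⟩ := hub (∑ q : Q ⧸ H₁, ‖b q.out‖)
      have h1 : b g = b (QuotientGroup.mk (s := H₁) g).out := by
        obtain ⟨h, hh⟩ := QuotientGroup.mk_out_eq_mul H₁ g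
        rw [hh, hconst g h h.2]
      have h2 : ‖b (QuotientGroup.mk (s := H₁) g).out‖ ≤ ∑ q : Q ⧸ H₁, ‖b q.out‖ :=
        Finset.single_le_sum (f := fun q : Q ⧸ H₁ => ‖b q.out‖) (fun _ _ => norm_nonneg _)
          (Finset.mem_univ _)
      rw [h1] at hg
      linarith
    obtain ⟨h, hh, hbh⟩ := hne
    have hinf : Infinite σ.range := by
      have hinj : Function.Injective fun k : ℕ => (⟨σ (⟨h, hh⟩ ^ k), ⟨_, rfl⟩⟩ : σ.range) := by
        intro k l hkl
        have h1 : σ (⟨h, hh⟩ ^ k) = σ (⟨h, hh⟩ ^ l) := congrArg Subtype.val hkl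
        rw [map_pow, map_pow] at h1
        have h2 : (k : ℕ) • b h = l • b h := h1
        by_contra hne
        have h3 : ((k : ℝ) - l) • b h = 0 := by
          rw [sub_smul, Nat.cast_smul_eq_nsmul, Nat.cast_smul_eq_nsmul, h2, sub_self]
        rcases smul_eq_zero.1 h3 with h4 | h4
        · exact hne (by exact_mod_cast sub_eq_zero.1 h4)
        · exact hbh h4
      exact Infinite.of_injective _ hinj
    obtain ⟨f, hf⟩ := z2 σ (fun g h => mul_comm _ _) hinf
    exact ⟨H₁, f, hfi, hf⟩

end Pool.Agent.NGM.H38
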